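import Pool.Agent.R997.EqT.Big

/-!
# An equilateral triangle tiled by triangles with the sides 5, 16, 19, below the conjectured bound

For `(a, b, c) = (5, 16, 19)` the number of the problem is `M = 3 ⌈(19² - 5 - 16) / 80⌉ = 15`. The
equilateral triangle of side `960 = 12 · 5 · 16` is the union of `12² · 5 · 16 = 11520` triangles with
the sides `5, 16, 19` with disjoint interiors. So the set of the problem is not equal to
`{m² a b : m ≥ M}`: the answer to the question is negative.

The triangle is cut into three congruent isosceles trapezoids (long side `640`, the other sides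
`320`), each of them into four strips with the legs `80 = a b` and the long sides
`640, 560, 480, 400`. A strip with the long side `y` is a parallelogram with the sides `y - 380`
(a multiple of `5`) and `80`, a trapezoid with the parallel sides `380 = 20 · 19` and `19`, which is
made of tiles whose sides `19` are parallel to the long side, and two triangles similar to the tile
with the ratios `5` and `16`. The shortest strip has the long side `400 = c² + c + 4 a`: the use of
`c` here is what makes `m = 12` possible.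
-/

set_option autoImplicit false

open Set EuclideanGeometry Real

namespace Pool.Agent.Results.MP_d0305a_co.SmallerTiling

/-- The Euclidean plane. -/
abbrev Plane := EuclideanSpace ℝ (Fin 2)

/-- The closed triangle with the vertices `P 0`, `P 1`, `P 2`. -/
def tri (P : Fin 3 → Plane) : Set Plane := convexHull ℝ (Set.range P)

/-- `P` lists the vertices of a triangle with the side lengths `a`, `b`, `c`, i.e. of a triangle
congruent to `R`. -/
def IsCopy (a b c : ℝ) (P : Fin 3 → Plane) : Prop :=
  dist (P 1) (P 2) = a ∧ dist (P 2) (P 0) = b ∧ dist (P 0) (P 1) = c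

/-- `T` is the union of `N` triangles congruent to `R` (with the sides `a`, `b`, `c`) whose interiors
are pairwise disjoint. -/
def TilesInto (T : Set Plane) (a b c : ℝ) (N : ℕ) : Prop :=
  ∃ P : Fin N → Fin 3 → Plane, (∀ i, IsCopy a b c (P i)) ∧ (⋃ i, tri (P i)) = T ∧
    ∀ i j, i ≠ j → Disjoint (interior (tri (P i))) (interior (tri (P j)))

/-- `T` is an equilateral triangle of side `X`. -/
def IsEquilateral (T : Set Plane) (X : ℝ) : Prop :=
  0 < X ∧ ∃ V : Fin 3 → Plane, T = tri V ∧ dist (V 0) (V 1) = X ∧ dist (V 1) (V 2) = X ∧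
    dist (V 2) (V 0) = X

/-- Not all angles of the triangle with the sides `a`, `b`, `c` are rational multiples of `π`. -/
def Incommensurable (a b c : ℝ) : Prop :=
  ∀ P : Fin 3 → Plane, IsCopy a b c P →
    ¬ ∀ i j k : Fin 3, i ≠ j → j ≠ k → i ≠ k → ∃ r : ℚ, ∠ (P i) (P j) (P k) = r * π

/-- The triples `(a, b, c)` of the problem. The equation says that the angle opposite to `c` is
`2 π / 3`; in particular the triangle is not similar to an equilateral triangle. -/
structure Admissible (a b c : ℕ) : Prop where
  pos_a : 0 < a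
  pos_b : 0 < b
  pos_c : 0 < c
  coprime_ab : a.Coprime b
  coprime_ac : a.Coprime c
  coprime_bc : b.Coprime c
  law : c ^ 2 = a ^ 2 + b ^ 2 + a * b
  inc : Incommensurable a b c

/-- The number `M(a, b, c) = 3 ⌈(c² - a - b) / (a b)⌉`. -/
def M (a b c : ℕ) : ℤ := 3 * ⌈((c : ℚ) ^ 2 - a - b) / (a * b)⌉

open Pool.Agent.R997.EqT

lemma inc_5_16_19 : Incommensurable 5 16 19 := by
  rintro P ⟨h1, h2, h3⟩ h
  obtain ⟨r, hr⟩ := h 1 0 2 (by decide) (by decide) (by decide)
  have hl := dist_sq_eq_dist_sq_add_dist_sq_sub_two_mul_dist_mul_dist_mul_cos_angle (P 1) (P 0) (P 2)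
  rw [dist_comm (P 1) (P 0)] at hl
  rw [h1, h2, h3] at hl
  have hc : Real.cos (∠ (P 1) (P 0) (P 2)) = ((37 / 38 : ℚ) : ℝ) := by
    push_cast
    linarith
  have hn := niven ⟨r, hr⟩ ⟨37 / 38, hc⟩
  rw [hc] at hn
  norm_num at hn

lemma admissible_5_16_19 : Admissible 5 16 19 where
  pos_a := by norm_num
  pos_b := by norm_num
  pos_c := by norm_num
  coprime_ab := by norm_num
  coprime_ac := by norm_num
  coprime_bc := by norm_num
  law := by norm_num
  inc := by
    have := inc_5_16_19
    norm_num
    exact this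

lemma M_5_16_19 : M 5 16 19 = 15 := by
  unfold M
  have : ⌈(((19 : ℕ) : ℚ) ^ 2 - (5 : ℕ) - (16 : ℕ)) / ((5 : ℕ) * (16 : ℕ))⌉ = 5 := by
    rw [Int.ceil_eq_iff]
    norm_num
  rw [this]
  norm_num

/-- the coordinates -/
noncomputable def phi : (ℝ × ℝ) ≃ₗ[ℝ] Plane where
  toFun z := !₂[z.1 + z.2 / 2, z.2 * (√3 / 2)]
  map_add' x y := by
    ext i
    fin_cases i <;> simp <;> ring
  map_smul' c x := by
    ext i
    fin_cases i <;> simp <;> ring
  invFun w := (w 0 - w 1 / √3, w 1 * (2 / √3))
  left_inv z := by
    have h3 : √3 ≠ 0 := by positivity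
    ext <;> simp
    all_goals field_simp
    all_goals ring
  right_inv w := by
    have h3 : √3 ≠ 0 := by positivity
    ext i
    fin_cases i <;> simp
    all_goals field_simp
    all_goals ring

lemma dist_phi (x y : ℝ × ℝ) : dist (phi x) (phi y) = √(q (x - y)) := by
  rw [EuclideanSpace.dist_eq]
  congr 1
  have h3 : √3 ^ 2 = 3 := Real.sq_sqrt (by norm_num)
  simp only [Fin.sum_univ_two, phi, LinearEquiv.coe_mk, LinearMap.coe_mk, AddHom.coe_mk,
    Real.dist_eq, sq_abs, q, Prod.fst_sub, Prod.snd_sub]
  simp
  nlinarith [h3]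

lemma sqrt_val {x y : ℝ} (hx : 0 ≤ x) (h : y = x ^ 2) : √y = x := by
  rw [h, Real.sqrt_sq hx]

lemma image_hull (P : Fin 3 → ℝ × ℝ) : tri (fun k => phi (P k)) = phi '' hl P := by
  have := LinearMap.image_convexHull (phi : (ℝ × ℝ) →ₗ[ℝ] Plane) (Set.range P)
  unfold tri hl
  rw [← Set.range_comp] at this
  exact this.symm

lemma interior_image (A : Set (ℝ × ℝ)) : interior (phi '' A) = phi '' interior A :=
  ((phi.toContinuousLinearEquiv.toHomeomorph).image_interior A).symm

lemma equilateral_960 : IsEquilateral (phi '' Eq960) 960 := by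
  refine ⟨by norm_num, fun k => phi (![0, (960, 0), (0, 960)] k), ?_, ?_, ?_, ?_⟩
  · rw [image_hull]
    congr 1
    have h := hull_tri 0 (960, 0) (0, 960)
    have hr : Set.range ![(0 : ℝ × ℝ), (960, 0), (0, 960)] = {0, 0 + (960, 0), 0 + (0, 960)} := by
      ext z
      simp only [Matrix.range_cons, Matrix.range_empty, Set.union_empty, Set.mem_union,
        Set.mem_singleton_iff, Set.mem_insert_iff, zero_add]
    unfold hl
    rw [hr, h]
    ext z
    simp only [Eq960, Tri, mem_ofPred_eq]
    constructor
    · rintro ⟨h1, h2, h3⟩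
      refine ⟨z.1 / 960, z.2 / 960, by positivity, by positivity, by linarith, ?_⟩
      ext <;> simp
    · rintro ⟨s, t, hs, ht, hst, rfl⟩
      refine ⟨?_, ?_, ?_⟩ <;> simp <;> linarith
  · show dist (phi 0) (phi (960, 0)) = 960
    rw [dist_phi]
    exact sqrt_val (by norm_num) (by norm_num [q])
  · show dist (phi (960, 0)) (phi (0, 960)) = 960
    rw [dist_phi]
    exact sqrt_val (by norm_num) (by norm_num [q])
  · show dist (phi (0, 960)) (phi 0) = 960
    rw [dist_phi]
    exact sqrt_val (by norm_num) (by norm_num [q])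

lemma tiles_960 : TilesInto (phi '' Eq960) 5 16 19 11520 := by
  obtain ⟨ι, _, P, hc, hP, hU, hd⟩ := til_Eq960
  let e : Fin 11520 ≃ ι := (Fintype.equivFinOfCardEq hc).symm
  refine ⟨fun i k => phi (P (e i) k), ?_, ?_, ?_⟩
  · intro i
    obtain ⟨a, b, c⟩ := hP (e i)
    refine ⟨?_, ?_, ?_⟩
    · rw [dist_phi, a]; exact sqrt_val (by norm_num) (by norm_num)
    · rw [dist_phi, b]; exact sqrt_val (by norm_num) (by norm_num)
    · rw [dist_phi, c]; exact sqrt_val (by norm_num) (by norm_num)
  · have : (⋃ i, tri (fun k => phi (P (e i) k))) = ⋃ i, phi '' hl (P (e i)) :=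
      Set.iUnion_congr fun i => image_hull _
    rw [this, ← Set.image_iUnion, ← hU]
    congr 1
    exact e.surjective.iUnion_comp fun j => hl (P j)
  · intro i j hij
    rw [image_hull, image_hull, interior_image, interior_image]
    exact (Set.disjoint_image_iff phi.injective).mpr (hd _ _ fun h => hij (e.injective h))

/-- **An equilateral triangle tiled by fewer copies than conjectured.** The triple `(5, 16, 19)` is
admissible with `M = 15`, and an equilateral triangle of side `960` is tiled by `12² · 5 · 16`
triangles with the sides `5, 16, 19`. So it is not true that for all admissible triples `(a, b, c)`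
the numbers `N` of tiles in the tilings of equilateral triangles are exactly the numbers `m² a b`
with `m ≥ M(a, b, c)`. -/
theorem result :
    (Admissible 5 16 19 ∧ M 5 16 19 = 15 ∧
      ∃ T, IsEquilateral T 960 ∧ TilesInto T 5 16 19 (12 ^ 2 * 5 * 16)) ∧
    ¬ ∀ a b c : ℕ, Admissible a b c → ∀ N : ℕ,
      ((∃ T X, IsEquilateral T X ∧ TilesInto T a b c N) ↔
        ∃ m : ℤ, M a b c ≤ m ∧ (N : ℤ) = m ^ 2 * a * b) := by
  have hN : 12 ^ 2 * 5 * 16 = 11520 := by norm_num
  refine ⟨⟨admissible_5_16_19, M_5_16_19, _, equilateral_960, ?_⟩, ?_⟩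
  · rw [hN]
    exact tiles_960
  · intro h
    obtain ⟨m, hm, he⟩ := (h 5 16 19 admissible_5_16_19 11520).mp
      ⟨_, 960, equilateral_960, by exact_mod_cast tiles_960⟩
    rw [M_5_16_19] at hm
    push_cast at he
    nlinarith

end Pool.Agent.Results.MP_d0305a_co.SmallerTiling
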